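import Pool.Agent.H7FC.All

namespace Pool.Agent.H7FC.Kept.ForestOrConeWeightedTreewidth

open Pool.Agent.H70IM

/-- Let `H` be a finite graph that is a forest, or has a vertex `h` adjacent to all other vertices
such that `H - h` is a forest. There is a constant `c` such that every finite graph `G` without
`H` as an induced minor has, for every weight function `w ≥ 0` for which all closed neighbourhoods
have weight at most `M`, a tree decomposition all of whose bags have weight at most `c * M`. -/
theorem result {W : Type} [Fintype W] (H : SimpleGraph W)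
    (hH : H.IsAcyclic ∨
      ∃ h : W, (∀ w, w ≠ h → H.Adj h w) ∧ (H.induce {w | w ≠ h}).IsAcyclic) :
    ∃ c : ℝ, ∀ (V : Type) [Fintype V] (G : SimpleGraph V), ¬ IsInducedMinor H G →
      ∀ w : V → ℝ, (∀ v, 0 ≤ w v) → ∀ M : ℝ, 0 ≤ M →
      (∀ v, ∑ u, Set.indicator {u | u = v ∨ G.Adj v u} w u ≤ M) →
      ∃ (ι : Type) (_ : Finite ι) (T : SimpleGraph ι) (B : ι → Set V),
        IsTreeDecomp G T B ∧ ∀ s, ∑ u, Set.indicator (B s) w u ≤ c * M := by
  obtain ⟨c, -, hc⟩ := Pool.Agent.H7FC.all_treeDecomp.{0} H hH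
  refine ⟨c, fun V _ G hG w hw M hM hdeg => hc V G hG w hw M hM fun v => ?_⟩
  have h1 : Pool.Agent.H7FA.cl G {v} = {u | u = v ∨ G.Adj v u} := by
    ext u
    simp [Pool.Agent.H7FA.cl]
  rw [h1]
  exact hdeg v

end Pool.Agent.H7FC.Kept.ForestOrConeWeightedTreewidth
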